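import Pool.Agent.H741.RS.Stm

/-!
# Project RS of helper741 (MP_9c6456_an): the upper bound (statement `S_UP`)
-/

set_option autoImplicit false
open scoped ComplexConjugate

namespace Pool.Agent.H86.RS

open Pool.Agent.H741.RS

variable {n : ℕ}

lemma hp_conj (z w : V n) : hp w z = conj (hp z w) := (inner_conj_symm z w).symm

lemma hp_iso (U : V n ≃ₗᵢ[ℂ] V n) (z w : V n) : hp (U z) (U w) = hp z w := U.inner_map_map w z

lemma hp_smul (a b : ℂ) (z w : V n) : hp (a • z) (b • w) = a * conj b * hp z w := by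
  unfold hp
  rw [inner_smul_left, inner_smul_right]
  ring

lemma J_smul (a b : ℂ) (X Y : ℂ × V n) : J (a • X) (b • Y) = a * conj b * J X Y := by
  unfold J
  rw [Prod.smul_fst, Prod.smul_fst, Prod.smul_snd, Prod.smul_snd, hp_smul, smul_eq_mul,
    smul_eq_mul, map_mul]
  ring

lemma J_one (z w : V n) : J ((1 : ℂ), z) ((1 : ℂ), w) = 1 - hp z w := by
  unfold J
  rw [map_one, mul_one]

lemma hp_self (z : V n) : hp z z = ((‖z‖ ^ 2 : ℝ) : ℂ) := by
  unfold hp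
  rw [inner_self_eq_norm_sq_to_K]
  push_cast
  rfl

lemma one_sub_ne {z w : V n} (hz : z ∈ Bn n) (hw : w ∈ Bn n) : 1 - hp z w ≠ 0 := by
  intro h
  have h1 : hp z w = 1 := (sub_eq_zero.1 h).symm
  have h2 : ‖hp z w‖ ≤ ‖w‖ * ‖z‖ := norm_inner_le_norm w z
  rw [h1, norm_one] at h2
  have h3 : ‖z‖ < 1 := hz
  have h4 : ‖w‖ < 1 := hw
  nlinarith [mul_nonneg (norm_nonneg w) (sub_nonneg.2 h3.le)]

lemma u0_iso (k : ℕ) (U : V n ≃ₗᵢ[ℂ] V n) (z w : V n) : u0 k (U z) (U w) = u0 k z w := by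
  unfold u0
  rw [hp_iso]

lemma ev_smul {i : ℕ} {P : MvPolynomial (Fin n) ℂ} (hP : P.IsHomogeneous i) (s : ℂ) (z : V n) :
    ev P (s • z) = s ^ i * ev P z := by
  unfold ev
  rw [MvPolynomial.eval_eq', MvPolynomial.eval_eq', Finset.mul_sum]
  refine Finset.sum_congr rfl fun d hd => ?_
  have h1 : ∑ j, d j = i := by
    have h2 := hP (MvPolynomial.mem_support_iff.1 hd)
    rw [Finsupp.weight_apply] at h2
    simp only [Pi.one_apply, smul_eq_mul, mul_one] at h2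
    rw [← h2, Finsupp.sum_fintype]
    intro _
    rfl
  have h2 : ∏ j, (s • z) j ^ d j = s ^ i * ∏ j, z j ^ d j := by
    rw [← h1, ← Finset.prod_pow_eq_pow_sum, ← Finset.prod_mul_distrib]
    refine Finset.prod_congr rfl fun j _ => ?_
    rw [PiLp.smul_apply, smul_eq_mul, mul_pow]
  rw [h2]
  ring

lemma hker_smul {i j : ℕ} {u : V n → V n → ℂ} (hu : HKer i j u) (s t : ℂ) (z w : V n) :
    u (s • z) (t • w) = s ^ i * conj t ^ j * u z w := by
  obtain ⟨m, a, b, h1, h2⟩ := hu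
  rw [h2, h2, Finset.mul_sum]
  refine Finset.sum_congr rfl fun l _ => ?_
  rw [ev_smul (h1 l).1, ev_smul (h1 l).2, map_mul, map_pow]
  ring

lemma poly_zero (m : ℕ) (x : ℕ → ℂ)
    (h : ∀ s : ℝ, ∑ i ∈ Finset.range m, (s : ℂ) ^ i * x i = 0) : ∀ i < m, x i = 0 := by
  intro i hi
  have h1 : (∑ i ∈ Finset.range m, Polynomial.C (x i) * Polynomial.X ^ i : Polynomial ℂ) = 0 := by
    apply Polynomial.eq_zero_of_infinite_isRoot
    refine Set.Infinite.mono (s := Set.range fun s : ℝ => (s : ℂ)) ?_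
      (Set.infinite_range_of_injective Complex.ofReal_injective)
    rintro _ ⟨s, rfl⟩
    show Polynomial.eval (s : ℂ) _ = 0
    rw [Polynomial.eval_finsetSum, ← h s]
    refine Finset.sum_congr rfl fun j _ => ?_
    rw [Polynomial.eval_mul, Polynomial.eval_C, Polynomial.eval_pow, Polynomial.eval_X, mul_comm]
  have h2 := congrArg (fun p : Polynomial ℂ => p.coeff i) h1
  simp only [Polynomial.finsetSum_coeff, Polynomial.coeff_C_mul, Polynomial.coeff_X_pow,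
    Polynomial.coeff_zero] at h2
  rw [Finset.sum_eq_single i] at h2
  · rwa [if_pos rfl, mul_one] at h2
  · intro j _ hj
    rw [if_neg (Ne.symm hj), mul_zero]
  · intro h3
    exact absurd (Finset.mem_range.2 hi) h3

/-- comparison of the components of bidegree (1,1) -/
lemma comp11 {k : ℕ} (hk : 2 ≤ k) {v0 : V n → V n → ℂ} (hA : AKer k v0) (h : V n →L[ℂ] V n)
    (U : V n ≃ₗᵢ[ℂ] V n)
    (hv : ∀ z w, v0 (U z) (U w) + hp (h (U z)) (U w) = v0 z w + hp (h z) w) (z w : V n) :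
    hp (h (U z)) (U w) = hp (h z) w := by
  obtain ⟨v, h1, -, -, h11, h2⟩ := hA
  obtain ⟨b, hb⟩ : ∃ b, b = hp (h (U z)) (U w) - hp (h z) w := ⟨_, rfl⟩
  obtain ⟨c, hc⟩ : ∃ c : ℕ → ℕ → ℂ, ∀ i j, c i j = v i j (U z) (U w) - v i j z w :=
    ⟨_, fun _ _ => rfl⟩
  have key : ∀ t s : ℝ, ∑ i ∈ Finset.range (k + 1), (s : ℂ) ^ i *
      (∑ j ∈ Finset.range (k + 1), (t : ℂ) ^ j * (c i j + if i = 1 ∧ j = 1 then b else 0)) = 0 := by
    intro t s
    have e1 := hv ((s : ℂ) • z) ((t : ℂ) • w)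
    rw [map_smul, map_smul, map_smul, map_smul, hp_smul, hp_smul, Complex.conj_ofReal] at e1
    have e2 : ∀ z w : V n, v0 ((s : ℂ) • z) ((t : ℂ) • w) = ∑ i ∈ Finset.range (k + 1),
        ∑ j ∈ Finset.range (k + 1), (s : ℂ) ^ i * (t : ℂ) ^ j * v i j z w := by
      intro z w
      rw [h2]
      refine Finset.sum_congr rfl fun i _ => Finset.sum_congr rfl fun j _ => ?_
      rw [hker_smul (h1 i j), Complex.conj_ofReal]
    rw [e2, e2] at e1
    have e3 : ∑ i ∈ Finset.range (k + 1), (s : ℂ) ^ i *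
        (∑ j ∈ Finset.range (k + 1), (t : ℂ) ^ j * (c i j + if i = 1 ∧ j = 1 then b else 0)) =
        ∑ i ∈ Finset.range (k + 1), ∑ j ∈ Finset.range (k + 1),
          (s : ℂ) ^ i * (t : ℂ) ^ j * v i j (U z) (U w) -
        ∑ i ∈ Finset.range (k + 1), ∑ j ∈ Finset.range (k + 1),
          (s : ℂ) ^ i * (t : ℂ) ^ j * v i j z w +
        ∑ i ∈ Finset.range (k + 1), ∑ j ∈ Finset.range (k + 1),
          (s : ℂ) ^ i * (t : ℂ) ^ j * (if i = 1 ∧ j = 1 then b else 0) := by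
      rw [← Finset.sum_sub_distrib, ← Finset.sum_add_distrib]
      refine Finset.sum_congr rfl fun i _ => ?_
      rw [Finset.mul_sum, ← Finset.sum_sub_distrib, ← Finset.sum_add_distrib]
      refine Finset.sum_congr rfl fun j _ => ?_
      rw [hc]
      ring
    have e4 : ∑ i ∈ Finset.range (k + 1), ∑ j ∈ Finset.range (k + 1),
          (s : ℂ) ^ i * (t : ℂ) ^ j * (if i = 1 ∧ j = 1 then b else 0) = s * t * b := by
      rw [Finset.sum_eq_single 1]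
      · rw [Finset.sum_eq_single 1]
        · rw [if_pos ⟨rfl, rfl⟩, pow_one, pow_one]
        · intro j _ hj
          rw [if_neg fun h => hj h.2, mul_zero]
        · intro h3
          exact absurd (Finset.mem_range.2 (by omega)) h3
      · intro i _ hi
        refine Finset.sum_eq_zero fun j _ => ?_
        rw [if_neg fun h => hi h.1, mul_zero]
      · intro h3
        exact absurd (Finset.mem_range.2 (by omega)) h3
    rw [e3, e4, hb]
    linear_combination e1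
  have g1 : ∀ t : ℝ, ∑ j ∈ Finset.range (k + 1), (t : ℂ) ^ j *
      (c 1 j + if 1 = 1 ∧ j = 1 then b else 0) = 0 := fun t =>
    poly_zero (k + 1) (fun i => ∑ j ∈ Finset.range (k + 1), (t : ℂ) ^ j *
      (c i j + if i = 1 ∧ j = 1 then b else 0)) (key t) 1 (by omega)
  have g2 := poly_zero (k + 1) (fun j => c 1 j + if 1 = 1 ∧ j = 1 then b else 0) g1 1 (by omega)
  have g3 : c 1 1 = 0 := by
    rw [hc, h11]
    simp
  simp only [g3, and_self, if_true, zero_add] at g2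
  rw [hb] at g2
  exact sub_eq_zero.1 g2

/-- the linear map `(a, x) ↦ (a, U x)` -/
noncomputable def AU (U : V n ≃ₗᵢ[ℂ] V n) : (ℂ × V n) →ₗ[ℂ] (ℂ × V n) :=
  LinearMap.prodMap LinearMap.id (U.toLinearEquiv : V n →ₗ[ℂ] V n)

lemma AU_apply (U : V n ≃ₗᵢ[ℂ] V n) (X : ℂ × V n) : AU U X = (X.1, U X.2) := rfl

lemma AU_pres (U : V n ≃ₗᵢ[ℂ] V n) : PresJ (AU U) := by
  intro X Y
  rw [AU_apply, AU_apply]
  unfold J
  simp only [hp_iso]

lemma AU_frac (U : V n ≃ₗᵢ[ℂ] V n) (z : V n) : frac (AU U) z = U z := by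
  unfold frac
  rw [AU_apply, inv_one, one_smul]

lemma map_ball {N : ℕ} (f : RSM n N) {z : V n} (hz : z ∈ Bn n) : f.map z ∈ Bn N := by
  have hz' : ‖z‖ < 1 := hz
  have h1 := f.maps z hz'
  have h2 := f.q_ne z hz'.le
  show ‖f.map z‖ < 1
  have h3 : ‖f.map z‖ ^ 2 < 1 := by
    rw [EuclideanSpace.norm_sq_eq]
    have h4 : ∀ i, ‖f.map z i‖ ^ 2 = ‖ev (f.p i) z‖ ^ 2 / ‖ev f.q z‖ ^ 2 := by
      intro i
      show ‖ev (f.p i) z / ev f.q z‖ ^ 2 = _
      rw [norm_div, div_pow]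
    have h5 : 0 < ‖ev f.q z‖ ^ 2 := by positivity
    rw [Finset.sum_congr rfl fun i _ => h4 i, ← Finset.sum_div, div_lt_one h5]
    exact h1
  exact (sq_lt_one_iff₀ (norm_nonneg _)).1 h3

lemma right_left (h9 : S_TOG) {N : ℕ} (f : RSM n N) (u : V n → V n → ℂ)
    (hJ : ∀ z w, J (f.F z) (f.F w) = (1 - hp z w) * u z w) (U : V n ≃ₗᵢ[ℂ] V n)
    (hU : ∀ z w, u (U z) (U w) = u z w) (γ : V n → V n) (hγ : ∀ z ∈ Bn n, γ z = U z) :
    InGamma f γ := by
  obtain ⟨-, ψ, h2, h3⟩ := h9 n N f 0 (AU U) (AU_pres U) (fun z _ w _ => by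
    rw [pow_zero, pow_zero, map_one, one_mul, one_mul, AU_frac, AU_frac, hJ, hJ, hp_iso, hU])
  refine ⟨⟨AU U, AU_pres U, fun z hz => by rw [hγ z hz, AU_frac]⟩, ψ, h2, fun z hz => ?_⟩
  rw [hγ z hz, ← AU_frac, h3 z hz]

lemma left_right (h6 : S_LAM) (h7 : S_PRES) (h8 : S_UNIT) {N k : ℕ} (hn : 1 ≤ n) (f : RSM n N)
    (u : V n → V n → ℂ) (c0 : ℝ) (hc0 : 0 < c0) (hq : f.q = 1) (hdeg : f.deg = k + 1)
    (hJ : ∀ z w, J (f.F z) (f.F w) = (1 - hp z w) * u z w)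
    (hbig : ∀ z : V n, 1 ≤ ‖z‖ → c0 * ‖z‖ ^ (2 * (k + 1)) ≤ 1 + ∑ i, ‖ev (f.p i) z‖ ^ 2)
    (s0 : 0 < (u 0 0).re)
    (hmin : ∀ z : V n, z ≠ 0 → ‖z‖ < 1 → (1 - ‖z‖ ^ 2) ^ k * (u 0 0).re < (u z z).re)
    (γ : V n → V n) (hγ : InGamma f γ) :
    ∃ U : V n ≃ₗᵢ[ℂ] V n, (∀ z ∈ Bn n, γ z = U z) ∧
      ∀ z ∈ Bn n, ∀ w ∈ Bn n, u (U z) (U w) = u z w := by
  obtain ⟨⟨A, hA, hγA⟩, ψ, ⟨B, hB, hψB⟩, hmap⟩ := hγ
  have hm : ∀ z ∈ Bn n, f.map (frac A z) = frac B (f.map z) := fun z hz => by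
    rw [← hγA z hz, hmap z hz, hψB _ (map_ball f hz)]
  obtain ⟨c, hc⟩ := h6 n N k f A B c0 hn hc0 hq hdeg hA hB hm hbig
  obtain ⟨⟨A', hA', -, hr⟩, hA1⟩ := h7 n A hA
  have hstar : ∀ z ∈ Bn n, ∀ w ∈ Bn n, (A (1, z)).1 ^ k * conj ((A (1, w)).1) ^ k *
      u (frac A z) (frac A w) = c * conj c * u z w := by
    intro z hz w hw
    have ez := (hA1 z hz).2.2.1
    have ew := (hA1 w hw).2.2.1
    have e1 : (A (1, z)).1 * conj (A (1, w)).1 * (1 - hp (frac A z) (frac A w)) =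
        1 - hp z w := by
      have e3 := hA (1, z) (1, w)
      rw [J_one] at e3
      rw [ez, ew, J_smul, J_one] at e3
      exact e3
    have e2 : J ((A (1, z)).1 ^ (k + 1) • f.F (frac A z)) ((A (1, w)).1 ^ (k + 1) •
        f.F (frac A w)) = J (c • B (f.F z)) (c • B (f.F w)) := by
      rw [hc z hz, hc w hw]
    rw [J_smul, J_smul, hB, hJ, hJ, map_pow] at e2
    apply mul_left_cancel₀ (one_sub_ne hz hw)
    linear_combination e2 - (A (1, z)).1 ^ k * conj ((A (1, w)).1) ^ k *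
      u (frac A z) (frac A w) * e1
  have hreal : ∀ z ∈ Bn n, (‖(A (1, z)).1‖ ^ 2) ^ k * (u (frac A z) (frac A z)).re =
      ‖c‖ ^ 2 * (u z z).re := by
    intro z hz
    have e1 := hstar z hz z hz
    rw [← mul_pow, Complex.mul_conj', Complex.mul_conj'] at e1
    have e2 : ((‖(A (1, z)).1‖ : ℂ) ^ 2) ^ k = (((‖(A (1, z)).1‖ ^ 2) ^ k : ℝ) : ℂ) := by
      push_cast
      rfl
    have e3 : (‖c‖ : ℂ) ^ 2 = ((‖c‖ ^ 2 : ℝ) : ℂ) := by
      push_cast
      rfl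
    rw [e2, e3] at e1
    have e4 := congrArg Complex.re e1
    rw [Complex.re_ofReal_mul, Complex.re_ofReal_mul] at e4
    exact e4
  have h0 : (0 : V n) ∈ Bn n := by
    show ‖(0 : V n)‖ < 1
    rw [norm_zero]
    exact one_pos
  obtain ⟨a0, b0, -, n0⟩ := hA1 0 h0
  have r0 := hreal 0 h0
  rw [norm_zero, zero_pow two_ne_zero, sub_zero] at n0
  -- the point which is mapped to the origin
  obtain ⟨a1, b1, e1, -⟩ := (h7 n A' hA').2 0 h0
  have hz1 : frac A (frac A' 0) = 0 := by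
    have g1 := LinearMap.congr_fun hr ((1 : ℂ), (0 : V n))
    rw [LinearMap.comp_apply, LinearMap.id_apply, e1, map_smul] at g1
    have g2 := congrArg Prod.snd g1
    rw [Prod.smul_snd] at g2
    have g3 : (A (1, frac A' 0)).2 = 0 := (smul_eq_zero.1 g2).resolve_left a1
    show (A (1, frac A' 0)).1⁻¹ • (A (1, frac A' 0)).2 = 0
    rw [g3, smul_zero]
  have r1 := hreal _ b1
  have n1 := (hA1 _ b1).2.2.2
  rw [hz1, norm_zero, zero_pow two_ne_zero, sub_zero, one_mul] at n1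
  rw [hz1, n1] at r1
  have hle : ∀ z ∈ Bn n, (1 - ‖z‖ ^ 2) ^ k * (u 0 0).re ≤ (u z z).re := by
    intro z hz
    by_cases hz0 : z = 0
    · rw [hz0, norm_zero, zero_pow two_ne_zero, sub_zero, one_pow, one_mul]
    · exact (hmin z hz0 hz).le
  have hpos : ∀ z ∈ Bn n, 0 < (1 - ‖z‖ ^ 2) ^ k := by
    intro z hz
    have hz' : ‖z‖ < 1 := hz
    have : 0 < 1 - ‖z‖ ^ 2 := by nlinarith [norm_nonneg z]
    positivity
  have hcle : ‖c‖ ^ 2 ≤ 1 := by
    have g1 := mul_le_mul_of_nonneg_left (hle _ b1) (sq_nonneg ‖c‖)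
    rw [← r1] at g1
    have g2 := mul_pos (hpos _ b1) s0
    nlinarith
  have hA0 : 0 < ‖(A (1, (0 : V n))).1‖ ^ 2 := by
    have := norm_pos_iff.2 a0
    positivity
  have hf0 : frac A 0 = 0 := by
    by_contra hne
    have g1 := mul_lt_mul_of_pos_left (hmin _ hne b0) (pow_pos hA0 k)
    rw [r0, ← mul_assoc, ← mul_pow, mul_comm (‖(A (1, (0 : V n))).1‖ ^ 2), n0, one_pow,
      one_mul] at g1
    nlinarith
  have hcge : 1 ≤ ‖c‖ ^ 2 := by
    have g1 := mul_le_mul_of_nonneg_left (hle _ b0) (pow_pos hA0 k).le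
    rw [r0, ← mul_assoc, ← mul_pow, mul_comm (‖(A (1, (0 : V n))).1‖ ^ 2), n0, one_pow,
      one_mul] at g1
    by_contra hlt
    push Not at hlt
    nlinarith
  have hc1 : ‖c‖ ^ 2 = 1 := le_antisymm hcle hcge
  obtain ⟨U, a, ha, hU⟩ := h8 n A hA hf0
  have ha0 : a ≠ 0 := by
    intro h
    rw [h, norm_zero] at ha
    exact zero_ne_one ha
  have hfr : ∀ z, frac A z = U z := by
    intro z
    unfold frac
    rw [hU]
    exact inv_smul_smul₀ ha0 _
  refine ⟨U, fun z hz => by rw [hγA z hz, hfr], fun z hz w hw => ?_⟩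
  have g1 := hstar z hz w hw
  rw [hfr, hfr, hU, hU] at g1
  have g2 : (a ^ k * conj a ^ k : ℂ) = 1 := by
    rw [← mul_pow, Complex.mul_conj', ha]
    norm_num
  have g3 : (c * conj c : ℂ) = 1 := by
    rw [Complex.mul_conj']
    exact_mod_cast hc1
  have g4 : a ^ k * conj a ^ k * u (U z) (U w) = c * conj c * u z w := g1
  rwa [g2, g3, one_mul, one_mul] at g4

theorem t_UP (h1 : S_GEN) (h2 : S_POS) (h3 : S_MIN) (h4 : S_BIG) (h5 : S_MKF) (h6 : S_LAM)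
    (h7 : S_PRES) (h8 : S_UNIT) (h9 : S_TOG) (h10 : S_PID) (h11 : S_KCL) : S_UP := by
  intro n k G iG hn hk hSep
  obtain ⟨h, v0, hh, hv0, hAv, hG, hmax⟩ := h1 n k G iG hn hk hSep
  obtain ⟨v, hv⟩ : ∃ v : V n → V n → ℂ, ∀ z w, v z w = v0 z w + hp (h z) w :=
    ⟨_, fun _ _ => rfl⟩
  have hHv : Herm v := by
    intro z w
    rw [hv, hv, map_add, hv0 z w, hh z w, ← hp_conj]
  obtain ⟨k1, k2, -, -, k5, k6, k7⟩ := h11 n k k
  have hKh : Ker k k (fun z w : V n => hp (h z) w) :=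
    (h11 n 1 1).2.2.1 _ k k (by omega) (by omega) (k5 h)
  have hKv : Ker k k v := by
    have g1 := k1 v0 (fun z w : V n => hp (h z) w) (k7 v0 hAv) hKh 1
    have g2 : (fun z w => v0 z w + 1 * hp (h z) w) = v := by
      funext z w
      rw [hv, one_mul]
    rwa [g2] at g1
  obtain ⟨ε1, p1, q1⟩ := h2 n k v hn hHv hKv
  obtain ⟨ε2, p2, q2⟩ := h3 n k h v0 hk hh hv0 hAv
  obtain ⟨ε3, p3, q3⟩ := h4 n k v hHv hKv
  obtain ⟨ε, hε0, hε1, hε2, hε3⟩ : ∃ ε : ℝ, 0 < ε ∧ ε < ε1 ∧ ε < ε2 ∧ ε < ε3 := by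
    have hm : 0 < min ε1 (min ε2 ε3) := lt_min p1 (lt_min p2 p3)
    refine ⟨min ε1 (min ε2 ε3) / 2, by positivity, ?_, ?_, ?_⟩
    · exact lt_of_lt_of_le (half_lt_self hm) (min_le_left _ _)
    · exact lt_of_lt_of_le (half_lt_self hm) ((min_le_right _ _).trans (min_le_left _ _))
    · exact lt_of_lt_of_le (half_lt_self hm) ((min_le_right _ _).trans (min_le_right _ _))
  obtain ⟨N, p, d1, d2, d3⟩ := q1 ε hε0 hε1
  obtain ⟨m1, m2⟩ := q2 ε hε0 hε2
  obtain ⟨c0, c1, c2⟩ := q3 ε hε0 hε3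
  obtain ⟨u, hu⟩ : ∃ u : V n → V n → ℂ, ∀ z w, u z w = u0 k z w + ε * v z w :=
    ⟨_, fun _ _ => rfl⟩
  have hu00 : u 0 0 = u0 k (0 : V n) 0 + ε * v0 0 0 := by
    rw [hu, hv, map_zero]
    have : hp (0 : V n) 0 = 0 := by
      unfold hp
      rw [inner_zero_left]
    rw [this, add_zero]
  rw [← hu00] at m1 m2
  have hmin : ∀ z : V n, z ≠ 0 → ‖z‖ < 1 → (1 - ‖z‖ ^ 2) ^ k * (u 0 0).re < (u z z).re := by
    intro z hz hz1
    rw [hu z z, hv]
    exact m2 z hz hz1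
  have hupos : ∀ z ∈ Bn n, 0 < (u z z).re := by
    intro z hz
    by_cases hz0 : z = 0
    · rw [hz0]
      exact m1
    · have hz' : ‖z‖ < 1 := hz
      refine lt_of_le_of_lt ?_ (hmin z hz0 hz)
      have : 0 ≤ 1 - ‖z‖ ^ 2 := by nlinarith [norm_nonneg z]
      positivity
  have d3' : ∀ z w, ∑ i, ev (p i) z * conj (ev (p i) w) = 1 - (1 - hp z w) * u z w := by
    intro z w
    rw [hu]
    exact d3 z w
  obtain ⟨f, f1, f2, f3, f4⟩ := h5 n N k p u d1 d2 d3' hupos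
  have hbig : ∀ z : V n, 1 ≤ ‖z‖ → c0 * ‖z‖ ^ (2 * (k + 1)) ≤ 1 + ∑ i, ‖ev (f.p i) z‖ ^ 2 := by
    intro z hz
    have g1 := c2 z hz
    have g2 : ((1 + ∑ i, ‖ev (f.p i) z‖ ^ 2 : ℝ) : ℂ) =
        2 - (1 - hp z z) * (u0 k z z + ε * v z z) := by
      rw [← hu]
      push_cast
      have g3 : ∀ i, ((‖ev (f.p i) z‖ : ℝ) : ℂ) ^ 2 = ev (p i) z * conj (ev (p i) z) := by
        intro i
        rw [f2, Complex.mul_conj']
      rw [Finset.sum_congr rfl fun i _ => g3 i, d3']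
      ring
    have g4 := congrArg Complex.re g2
    rw [Complex.ofReal_re] at g4
    rw [g4]
    exact g1
  have hKu : Ker k k u := by
    have g1 := k1 (u0 k) v k6 hKv ε
    have g2 : (fun z w => u0 k z w + (ε : ℂ) * v z w) = u := by
      funext z w
      rw [hu]
    rwa [g2] at g1
  refine ⟨N, f, f3, fun γ => ⟨fun hγ => ?_, ?_⟩⟩
  · obtain ⟨U, hU1, hU2⟩ := left_right h6 h7 h8 hn f u c0 c1 f1 f3 f4 hbig m1 hmin γ hγ
    refine ⟨U, ?_, hU1⟩
    have g1 : ∀ z w, u (U z) (U w) = u z w :=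
      h10 n k (fun z w => u (U z) (U w)) u (k2 u U hKu) hKu (Or.inl hU2)
    have g2 : ∀ z w, v0 (U z) (U w) + hp (h (U z)) (U w) = v0 z w + hp (h z) w := by
      intro z w
      have e1 := g1 z w
      rw [hu, hu, u0_iso] at e1
      have e2 := add_left_cancel e1
      have e3 := mul_left_cancel₀ (Complex.ofReal_ne_zero.2 hε0.ne') e2
      rw [hv, hv] at e3
      exact e3
    have g3 := comp11 hk hAv h U g2
    refine hmax U (fun z => ?_) (fun z w => ?_)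
    · refine ext_inner_left ℂ fun w => ?_
      have e1 := g3 z (U.symm w)
      rw [← hp_iso U (h z), U.apply_symm_apply] at e1
      exact e1
    · have e1 := g2 z w
      rw [g3] at e1
      exact add_right_cancel e1
  · rintro ⟨U, hU, hγ⟩
    refine right_left h9 f u f4 U (fun z w => ?_) γ hγ
    obtain ⟨i1, i2⟩ := hG U hU
    rw [hu, hu, u0_iso, hv, hv, i1 z w, i2 z, hp_iso]

end Pool.Agent.H86.RS
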